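import Pool.Agent.H31.DS3

open Filter

namespace Pool.Agent.Results.MP_79a1cb_co.Superlinear

/-- The alternation `a b a b …` with `n` letters. -/
def alt (a b n : ℕ) : List ℕ := (List.range n).map fun i => if i % 2 = 0 then a else b

/-- `w` has no subsequence isomorphic to the alternation of length `n`. -/
def AltFree (n : ℕ) (w : List ℕ) : Prop := ∀ a b, a ≠ b → ¬ (alt a b n).Sublist w

/-- The largest length of an `a_n`-free subsequence of `u`. -/
noncomputable def LSS (u : List ℕ) (n : ℕ) : ℕ :=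
  sSup {k | ∃ w : List ℕ, w.Sublist u ∧ AltFree n w ∧ w.length = k}

/-- The minimum of `LSS(u, a_n)` over sequences `u` of length `m`. -/
noncomputable def ss (m n : ℕ) : ℕ := sInf {k | ∃ u : List ℕ, u.length = m ∧ LSS u n = k}

theorem result (n : ℕ) (hn : 5 ≤ n) : Tendsto (fun m : ℕ => (ss m n : ℝ) / √m) atTop atTop := by
  classical
  rw [tendsto_atTop_atTop]
  intro x
  obtain ⟨q0, H⟩ := H31.DS.main (2 * (⌈x⌉₊ + 1)) (by omega)
  refine ⟨(q0 + 1) * (q0 + 1), fun m hm => ?_⟩
  obtain ⟨u, hu, e⟩ : ss m n ∈ _ := Nat.sInf_mem (s := {k | ∃ u : List ℕ, u.length = m ∧ LSS u n = k})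
    ⟨_, List.replicate m 0, by simp, rfl⟩
  have q1 : q0 + 1 ≤ m.sqrt := Nat.le_sqrt.2 hm
  obtain ⟨W, w1, w2, w3⟩ := H m.sqrt (by omega) fun p => u.getD p 0
  have eu : (List.range m).map (fun p => u.getD p 0) = u := by
    refine List.ext_getElem (by simp [hu]) fun i h1 h2 => ?_
    simp [List.getElem?_eq_getElem h2]
  have : W.card ≤ ss m n := by
    rw [← e]
    refine le_csSup ⟨m, ?_⟩ ⟨((List.range m).filter (· ∈ W)).map fun p => u.getD p 0, ?_, ?_, ?_⟩
    · rintro k ⟨w, a, -, rfl⟩; exact hu ▸ a.length_le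
    · exact (List.filter_sublist.map _).trans (by rw [eu])
    · intro a b ab h
      have h5 : [a, b, a, b, a].Sublist (alt a b n) := by
        have := (List.range_sublist.2 hn).map fun i => if i % 2 = 0 then a else b
        simpa [List.range_succ, alt] using this
      obtain ⟨l, l1, l2⟩ := List.sublist_map_iff.1 (h5.trans h)
      have pw := (List.pairwise_lt_range.sublist List.filter_sublist).sublist l1
      have mem : ∀ p ∈ l, p ∈ W := fun p hp => by simpa using (List.mem_filter.1 (l1.subset hp)).2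
      have len : l.length = 5 := by simpa using (congrArg List.length l2).symm
      match l, len, l2, pw, mem with
      | [p1, p2, p3, p4, p5], _, l2, pw, mem =>
        simp only [List.map_cons, List.map_nil, List.cons.injEq, and_true] at l2
        simp only [List.pairwise_cons, List.mem_cons, forall_eq_or_imp] at pw
        obtain ⟨e1, e2, e3, e4, e5⟩ := l2
        exact ab (e1.trans ((w2 p1 (mem _ (by simp)) p2 (mem _ (by simp)) p3 (mem _ (by simp)) p4
          (mem _ (by simp)) p5 (mem _ (by simp)) pw.1.1 pw.2.1.1 pw.2.2.1.1 pw.2.2.2.1.1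
          (e1.symm.trans e3) (e3.symm.trans e5) (e2.symm.trans e4)).trans e2.symm))
    · rw [List.length_map, ← List.toFinset_card_of_nodup (List.nodup_range.filter _)]
      congr 1; ext p
      simp only [List.mem_toFinset, List.mem_filter, List.mem_range, decide_eq_true_eq, and_iff_right_iff_imp]
      exact fun h => (Finset.mem_range.1 (w1 h)).trans_le (Nat.sqrt_le m)
  have m0 : (0 : ℝ) < m := by exact_mod_cast (by nlinarith : 0 < m)
  rw [le_div_iff₀ (Real.sqrt_pos.2 m0)]
  have a : √(m : ℝ) ≤ m.sqrt + 1 := Real.real_sqrt_le_nat_sqrt_succ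
  have b : (1 : ℝ) ≤ m.sqrt := by exact_mod_cast (by omega : 1 ≤ m.sqrt)
  have c : ((2 * (⌈x⌉₊ + 1) * m.sqrt : ℕ) : ℝ) ≤ ss m n := by exact_mod_cast w3.trans this
  have d := Nat.le_ceil x
  push_cast at c
  have : x * √(m : ℝ) ≤ (⌈x⌉₊ + 1) * (2 * m.sqrt) :=
    mul_le_mul (by linarith) (by linarith) (Real.sqrt_nonneg _) (by positivity)
  linarith

end Pool.Agent.Results.MP_79a1cb_co.Superlinear
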